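import Pool.Agent.L0h37.KM.SMAll
import Pool.Agent.L0h37.KM.SM2

set_option autoImplicit false

/-!
# The fourth power at one point and squares at almost all further points

The leading asymptotics of `∫_0^T |ζ(1/2+it)|^4 ∏_{j ≤ n} |ζ(1/2+i(t+c_j))|^2 dt` for almost all `c ∈ [0,T]^n`.
-/

namespace Pool.Agent.Results.MP_069854_nt.FourthMomentClusters

open Finset Filter Topology MeasureTheory Complex

noncomputable section

/-- The moment `∫_0^T |ζ(1/2+it)|^4 ∏_j |ζ(1/2+i(t+c_j))|^2 dt`. -/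
def moment {n : ℕ} (T : ℝ) (c : Fin n → ℝ) : ℝ :=
  ∫ t in (0:ℝ)..T, ‖riemannZeta (1 / 2 + I * t)‖ ^ 4 * ∏ j, ‖riemannZeta (1 / 2 + I * (t + c j))‖ ^ 2

/-- The local density at the prime `p`: `(1-1/p)^(n+4)` times the mean over the rotations of the `p`-factor of
`|ζ(1/2)|^4 ∏_j |ζ(1/2+ic_j)|^2`. -/
def localDensity {n : ℕ} (c : Fin n → ℝ) (p : ℕ) : ℝ :=
  (1 - 1 / (p : ℝ)) ^ (n + 4) * ∫ θ in (0:ℝ)..1,
    1 / (‖1 - cexp (2 * Real.pi * I * θ) * (p : ℂ) ^ (-(1 / 2) : ℂ)‖ ^ 4 *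
      ∏ j, ‖1 - cexp (2 * Real.pi * I * θ) * (p : ℂ) ^ (-(1 / 2 + I * c j))‖ ^ 2)

/-- The product of the local densities over the primes up to `y`. -/
def densityUpTo {n : ℕ} (y : ℝ) (c : Fin n → ℝ) : ℝ :=
  ∏ p ∈ (Finset.range (⌊y⌋₊ + 1)).filter Nat.Prime, localDensity c p

/-- The zeta factor `∏_j |ζ(1+ic_j)|^4 ∏_{i<j} |ζ(1+i(c_i-c_j))|^2`. -/
def zetaFactor {n : ℕ} (c : Fin n → ℝ) : ℝ :=
  (∏ j, ‖riemannZeta (1 + I * c j)‖ ^ 4) *
    ∏ i, ∏ j ∈ Finset.Ioi i, ‖riemannZeta (1 + I * (c i - c j))‖ ^ 2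

/-- The inverse of the Euler factor at `p` of `zetaFactor`. -/
def eulerInverse {n : ℕ} (c : Fin n → ℝ) (p : ℕ) : ℝ :=
  (∏ j, ‖1 - (p : ℂ) ^ (-(1 + I * c j))‖ ^ 4) *
    ∏ i, ∏ j ∈ Finset.Ioi i, ‖1 - (p : ℂ) ^ (-(1 + I * (c i - c j)))‖ ^ 2

/-- The arithmetic factor, an absolutely convergent product over all primes. -/
def arithmeticFactor {n : ℕ} (c : Fin n → ℝ) : ℝ := ∏' p : Nat.Primes, localDensity c p * eulerInverse c p

/-- For every `n`: the factors of the arithmetic factor are `1 + O(1/p^2)`, uniformly in `c`; and for every `ε > 0`, if `T` is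
large, then in the mean over `c ∈ [0,T]^n` the quotient of the moment by `T (log T)^(n+4)` differs from `1/12` times the
product of the local densities over `p ≤ log T` by at most `ε`, and outside a set of `c` of measure at most `ε T^n` the moment
is within the relative error `ε` of `(1/12) arithmeticFactor c * zetaFactor c * T (log T)^(n+4)`. -/
theorem result (n : ℕ) :
    (∃ C : ℝ, ∀ c : Fin n → ℝ, ∀ p : ℕ, p.Prime → |localDensity c p * eulerInverse c p - 1| ≤ C / (p : ℝ) ^ 2) ∧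
    ∀ ε : ℝ, 0 < ε → ∃ T₀ : ℝ, ∀ T : ℝ, T₀ ≤ T →
      IntegrableOn (fun c : Fin n → ℝ => |moment T c / (T * Real.log T ^ (n + 4)) -
          1 / 12 * densityUpTo (Real.log T) c|) {c | ∀ j, c j ∈ Set.Icc 0 T} ∧
      ∫ c in {c : Fin n → ℝ | ∀ j, c j ∈ Set.Icc 0 T}, |moment T c / (T * Real.log T ^ (n + 4)) -
          1 / 12 * densityUpTo (Real.log T) c| ≤ ε * T ^ n ∧
      volume {c : Fin n → ℝ | (∀ j, c j ∈ Set.Icc 0 T) ∧
        ¬ |moment T c / (1 / 12 * arithmeticFactor c * zetaFactor c * (T * Real.log T ^ (n + 4))) - 1| ≤ ε} ≤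
          ENNReal.ofReal (ε * T ^ n) := by
  obtain ⟨h1, h2, h3⟩ := Pool.Agent.L0h37.KM.sm_all Pool.Agent.L0h37.KM.gp_sm
  exact Pool.Agent.Y969.SM.res_gen h1 h2 h3 n

end

end Pool.Agent.Results.MP_069854_nt.FourthMomentClusters
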