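import Pool.Agent.L0h37.KM.Fin
import Pool.Agent.L0h37.KM.SEC
import Pool.Agent.L0h61.KM.UW

set_option autoImplicit false

/-!
# Shifted second moments at almost all tuples of points

For almost all `c ∈ [0,T]^n` the product of the integrands of the problem (for `k = 1`), with shifts `α_0, ..., α_n`, at
the points `t, t + c_1, ..., t + c_n` has the mean value predicted by the matrix integrals of the problem.
-/

namespace Pool.Agent.Results.MP_069854_nt.ShiftedClusters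

open Complex Filter Topology MeasureTheory
open scoped Matrix
open Pool.Agent.R446.KR

noncomputable section

/-- The normalised Haar measure of `U(N)`. -/
def haar (N : ℕ) : Measure (Matrix.unitaryGroup (Fin N) ℂ) := Measure.haarMeasure ⊤

/-- The matrix integral `W_1(α,N)` of the problem. -/
def W (α : ℝ) (N : ℕ) : ℂ :=
  (N : ℂ)⁻¹ * ∫ U : Matrix.unitaryGroup (Fin N) ℂ,
    (1 - cexp (-(I * α / N)) • (U : Matrix (Fin N) (Fin N) ℂ)).det *
      (1 - cexp (-(I * α / N)) • (U : Matrix (Fin N) (Fin N) ℂ)ᴴ).det ∂(haar N)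

/-- The integrand of the problem for `k = 1`, at the point `u`, with the shift `α / log T`. -/
def integrand (α T u : ℝ) : ℂ :=
  riemannZeta (1 / 2 + I * α / Real.log T + I * u) * riemannZeta (1 / 2 + I * α / Real.log T - I * u)

/-- The normalised moment: the integrand with shift `α₀` at `t`, times the integrands with shifts `α_j` at `t + c_j`. -/
def moment {n : ℕ} (α₀ : ℝ) (α : Fin n → ℝ) (T : ℝ) (c : Fin n → ℝ) : ℂ :=
  (T : ℂ)⁻¹ * ((Real.log T : ℂ) ^ (n + 1))⁻¹ *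
    ∫ t in (0:ℝ)..T, integrand α₀ T t * ∏ j, integrand (α j) T (t + c j)

/-- The local density at the prime `p`: `(1-1/p)^(n+1)` times the mean over the rotations of the `p`-factor of
`|ζ(1/2)|^2 ∏_j |ζ(1/2+ic_j)|^2`. -/
def localDensity {n : ℕ} (c : Fin n → ℝ) (p : ℕ) : ℝ :=
  (1 - 1 / (p : ℝ)) ^ (n + 1) * ∫ θ in (0:ℝ)..1,
    1 / (‖1 - cexp (2 * Real.pi * I * θ) * (p : ℂ) ^ (-(1 / 2) : ℂ)‖ ^ 2 *
      ∏ j, ‖1 - cexp (2 * Real.pi * I * θ) * (p : ℂ) ^ (-(1 / 2 + I * c j))‖ ^ 2)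

/-- The product of the local densities over the primes up to `y`. -/
def densityUpTo {n : ℕ} (y : ℝ) (c : Fin n → ℝ) : ℝ :=
  ∏ p ∈ (Finset.range (⌊y⌋₊ + 1)).filter Nat.Prime, localDensity c p

/-- The zeta factor `∏_j |ζ(1+ic_j)|^2 ∏_{i<j} |ζ(1+i(c_i-c_j))|^2`. -/
def zetaFactor {n : ℕ} (c : Fin n → ℝ) : ℝ :=
  (∏ j, ‖riemannZeta (1 + I * c j)‖ ^ 2) *
    ∏ i, ∏ j ∈ Finset.Ioi i, ‖riemannZeta (1 + I * (c i - c j))‖ ^ 2

/-- The inverse of the Euler factor at `p` of `zetaFactor`. -/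
def eulerInverse {n : ℕ} (c : Fin n → ℝ) (p : ℕ) : ℝ :=
  (∏ j, ‖1 - (p : ℂ) ^ (-(1 + I * c j))‖ ^ 2) *
    ∏ i, ∏ j ∈ Finset.Ioi i, ‖1 - (p : ℂ) ^ (-(1 + I * (c i - c j)))‖ ^ 2

/-- The arithmetic factor, an absolutely convergent product over all primes. -/
def arithmeticFactor {n : ℕ} (c : Fin n → ℝ) : ℝ := ∏' p : Nat.Primes, localDensity c p * eulerInverse c p

lemma moment_eq {n : ℕ} (α₀ : ℝ) (α : Fin n → ℝ) (T : ℝ) (c : Fin n → ℝ) :
    moment α₀ α T c = Pool.Agent.L0h37.KM.JJ α₀ α T c / ((T * Real.log T ^ (n + 1) : ℝ) : ℂ) := by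
  have e : ∀ a u : ℝ, integrand a T u = Pool.Agent.L0h37.KM.Gz (a / Real.log T) u := by
    intro a u
    unfold integrand Pool.Agent.L0h37.KM.Gz Pool.Agent.L0h37.KM.Z
    congr 2
    · push_cast
      ring
    · push_cast
      ring
  unfold moment Pool.Agent.L0h37.KM.JJ
  simp only [e]
  rw [Complex.ofReal_mul, Complex.ofReal_pow, ← mul_inv]
  exact (div_eq_inv_mul _ _).symm

/-- The limit `𝒲(α) = ∫_0^1 exp(-2iαx) dx` of the matrix integrals `W_1(α,N)` exists, and for every `n` and all real `α_0, ..., α_n`: in the mean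
over `c ∈ [0,T]^n` the normalised moment differs from `𝒲(α_0) ⋯ 𝒲(α_n)` times the product of the local densities over
`p ≤ log T` by `o(1)`; outside a set of `c` of measure `o(T^n)` it differs from
`𝒲(α_0) ⋯ 𝒲(α_n) arithmeticFactor c * zetaFactor c` by `o(1)`, and if this product of limits is not `0` the quotient of
the two tends to `1`. The Euler factors of the arithmetic factor are `1 + O(1/p^2)`, uniformly in `c`. -/
theorem result : ∃ 𝒲 : ℝ → ℂ, (∀ α : ℝ, Tendsto (fun N : ℕ => W α N) atTop (𝓝 (𝒲 α))) ∧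
    (∀ α : ℝ, 𝒲 α = ∫ x in (0:ℝ)..1, cexp (-(2 * I * ((α * x : ℝ) : ℂ)))) ∧
    ∀ (n : ℕ) (α₀ : ℝ) (α : Fin n → ℝ),
    (∃ C : ℝ, ∀ c : Fin n → ℝ, ∀ p : ℕ, p.Prime → |localDensity c p * eulerInverse c p - 1| ≤ C / (p : ℝ) ^ 2) ∧
    ∀ ε : ℝ, 0 < ε → ∃ T₀ : ℝ, ∀ T : ℝ, T₀ ≤ T →
      IntegrableOn (fun c : Fin n → ℝ => ‖moment α₀ α T c -
        (𝒲 α₀ * ∏ j, 𝒲 (α j)) * densityUpTo (Real.log T) c‖) {c | ∀ j, c j ∈ Set.Icc 0 T} ∧
      ∫ c in {c : Fin n → ℝ | ∀ j, c j ∈ Set.Icc 0 T}, ‖moment α₀ α T c -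
        (𝒲 α₀ * ∏ j, 𝒲 (α j)) * densityUpTo (Real.log T) c‖ ≤ ε * T ^ n ∧
      volume {c : Fin n → ℝ | (∀ j, c j ∈ Set.Icc 0 T) ∧
        ε ≤ ‖moment α₀ α T c - (𝒲 α₀ * ∏ j, 𝒲 (α j)) * (arithmeticFactor c * zetaFactor c)‖} ≤
          ENNReal.ofReal (ε * T ^ n) ∧
      (𝒲 α₀ * ∏ j, 𝒲 (α j) ≠ 0 → volume {c : Fin n → ℝ | (∀ j, c j ∈ Set.Icc 0 T) ∧
        ¬ ‖moment α₀ α T c / ((𝒲 α₀ * ∏ j, 𝒲 (α j)) * (arithmeticFactor c * zetaFactor c)) - 1‖ ≤ ε} ≤
          ENNReal.ofReal (ε * T ^ n)) := by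
  refine ⟨Pool.Agent.L0h37.KM.kap, fun α => ?_, fun α => rfl, fun n α₀ α => ?_⟩
  · have h := Pool.Agent.L0h61.KM.t_UW Pool.Agent.L0h37.KM.t_SEC α
    refine h.congr fun N => ?_
    unfold Pool.Agent.R446.KR.Wk W
    simp only [one_pow, pow_one]
    rfl
  · obtain ⟨h1, h2⟩ := Pool.Agent.L0h37.KM.k_all n α₀ α
    refine ⟨h1, fun ε hε => ?_⟩
    obtain ⟨T₀, h2⟩ := h2 ε hε
    refine ⟨max T₀ 2, fun T hT => ?_⟩
    obtain ⟨q1, q2, q3, q4⟩ := h2 T ((le_max_left _ _).trans hT)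
    have hT2 : 2 ≤ T := (le_max_right _ _).trans hT
    have hL0 : 0 < Real.log T := Real.log_pos (by linarith)
    have hD : 0 < T * Real.log T ^ (n + 1) := by positivity
    have hDc : ((T * Real.log T ^ (n + 1) : ℝ) : ℂ) ≠ 0 := by exact_mod_cast hD.ne'
    simp only [← moment_eq] at q1 q2 q3
    have e1 : ∀ c : Fin n → ℝ, ((Pool.Agent.N879.PZ.zp1 c * Pool.Agent.N879.PZ.AA1 c : ℝ) : ℂ) =
        (arithmeticFactor c : ℂ) * (zetaFactor c : ℂ) := by
      intro c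
      have : (Pool.Agent.N879.PZ.zp1 c * Pool.Agent.N879.PZ.AA1 c : ℝ) = arithmeticFactor c * zetaFactor c :=
        mul_comm _ _
      rw [this]
      push_cast
      rfl
    refine ⟨q1, q2, ?_, fun hne => ?_⟩
    · simp only [e1] at q3
      exact q3
    · have q4 := q4 hne
      have e2 : ∀ c : Fin n → ℝ, Pool.Agent.L0h37.KM.JJ α₀ α T c /
          ((Pool.Agent.L0h37.KM.kap α₀ * ∏ j, Pool.Agent.L0h37.KM.kap (α j)) *
          ((Pool.Agent.N879.PZ.zp1 c * Pool.Agent.N879.PZ.AA1 c * (T * Real.log T ^ (n + 1)) : ℝ) : ℂ)) =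
          moment α₀ α T c / ((Pool.Agent.L0h37.KM.kap α₀ * ∏ j, Pool.Agent.L0h37.KM.kap (α j)) *
            ((arithmeticFactor c : ℂ) * (zetaFactor c : ℂ))) := by
        intro c
        rw [moment_eq, ← e1, Complex.ofReal_mul (Pool.Agent.N879.PZ.zp1 c * Pool.Agent.N879.PZ.AA1 c), div_div]
        congr 1
        ring
      simp only [e2] at q4
      exact q4

end

end Pool.Agent.Results.MP_069854_nt.ShiftedClusters
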