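import Pool.Agent.L0h37.KM.GPAll

set_option autoImplicit false

/-!
# Products of second moment factors at almost all tuples of macroscopic distances, with all lower order terms and
square root error
-/

namespace Pool.Agent.Results.MP_069854_nt.SquareRootRecipe

open Complex Filter Topology MeasureTheory Set

noncomputable section

/-- The points `c_0 = 0, c_1, …, c_n`. -/
def points {n : ℕ} (c : Fin n → ℝ) : Fin (n + 1) → ℝ := Fin.cons 0 c

/-- The generalised divisor function `∑_{f_1 ⋯ f_k = m} ∏_j f_j^(-z_j)`. -/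
def divisorSum {k : ℕ} (z : Fin k → ℂ) (m : ℕ) : ℂ :=
  ∑ f ∈ Nat.finMulAntidiag k m, ∏ j, (f j : ℂ) ^ (-z j)

/-- The term `σ(w-ic)(p^m) σ(w+ic)(p^m) p^(-m)` of the local diagonal series, `σ` the generalised divisor function. -/
def localTerm {n : ℕ} (c : Fin n → ℝ) (w : Fin (n + 1) → ℂ) (p m : ℕ) : ℂ :=
  divisorSum (fun j => w j - I * points c j) (p ^ m) * divisorSum (fun j => w j + I * points c j) (p ^ m) *
    ((p : ℂ) ^ m)⁻¹

/-- The local factor `∏_{j,l} (1 - p^(-(1+w_j+w_l+i(c_j-c_l)))) ∑_m localTerm`. -/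
def localFactor {n : ℕ} (c : Fin n → ℝ) (w : Fin (n + 1) → ℂ) (p : ℕ) : ℂ :=
  (∏ j, ∏ l, (1 - (p : ℂ) ^ (-(1 + w j + w l + I * (points c j - points c l))))) * ∑' m : ℕ, localTerm c w p m

/-- The arithmetic factor `A(c,w)`, a product over all primes. -/
def arithmeticFactor {n : ℕ} (c : Fin n → ℝ) (w : Fin (n + 1) → ℂ) : ℂ :=
  ∏' p : Nat.Primes, localFactor c w p

/-- The main term: `(2πi)^(-n-1)` times the integral over `|w_0| = ⋯ = |w_n| = 1/8` of
`A(c,w) ∏_{j,l} ζ(1+w_j+w_l+i(c_j-c_l)) ∏_j (2/w_j) ((t+c_j)/2π)^(w_j)`. -/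
def mainTerm {n : ℕ} (c : Fin n → ℝ) (t : ℝ) : ℂ :=
  ((2 * Real.pi * I) ^ (n + 1))⁻¹ * torusIntegral (fun w : Fin (n + 1) → ℂ =>
    arithmeticFactor c w * (∏ j, ∏ l, riemannZeta (1 + w j + w l + I * (points c j - points c l))) *
      ∏ j, (2 / w j * cexp (w j * Real.log ((t + points c j) / (2 * Real.pi)))))
    (fun _ => 0) (fun _ => 1 / 8)

/-- For all `n`, `ε > 0` there are `δ > 0`, `T₀` such that for `T ≥ T₀` and `0 ≤ S ≤ T`, outside a set of measure at most
`T^(n-δ)` of `c ∈ [0,T]^n`, `∫_0^S |ζ(1/2+it)|^2 ∏_j |ζ(1/2+i(t+c_j))|^2 dt` differs from the integral of the main term over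
`[0,S]` by at most `T^(1/2+ε)`. The local factors are `1 + O(p^(-3/2))`, uniformly, so that the product which defines the
arithmetic factor converges absolutely. -/
theorem result (n : ℕ) :
    (∃ C : ℝ, ∀ (c : Fin n → ℝ) (w : Fin (n + 1) → ℂ), (∀ j, ‖w j‖ ≤ 1 / 8) → ∀ p : ℕ, p.Prime →
      (Summable fun m : ℕ => ‖localTerm c w p m‖) ∧ ‖localFactor c w p - 1‖ ≤ C * (p : ℝ) ^ (-(3 / 2) : ℝ)) ∧
    ∀ ε : ℝ, 0 < ε → ∃ δ T₀ : ℝ, 0 < δ ∧ ∀ T S : ℝ, T₀ ≤ T → 0 ≤ S → S ≤ T →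
      volume {c : Fin n → ℝ | (∀ j, c j ∈ Icc 0 T) ∧
        T ^ (1 / 2 + ε) < ‖((∫ t in (0 : ℝ)..S, ‖riemannZeta (1 / 2 + I * t)‖ ^ 2 *
            ∏ j, ‖riemannZeta (1 / 2 + I * (t + c j))‖ ^ 2 : ℝ) : ℂ) - ∫ t in (0 : ℝ)..S, mainTerm c t‖} ≤
        ENNReal.ofReal (T ^ ((n : ℝ) - δ)) := by
  have eT : ∀ (c : Fin n → ℝ) (w : Fin (n + 1) → ℂ) (p m : ℕ), localTerm c w p m =
      Pool.Agent.TH612.CF.lt (Pool.Agent.Y969.GP.av c w) (Pool.Agent.Y969.GP.bv c w) p m := by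
    intro c w p m
    unfold localTerm Pool.Agent.TH612.CF.lt Pool.Agent.Y969.GP.av Pool.Agent.Y969.GP.bv divisorSum
      Pool.Agent.W182.KO.tau
    have e1 : ∀ j, -(w j - I * (points c j : ℂ)) = I * ((Pool.Agent.Y969.GP.cc c j : ℂ) + I * w j) := by
      intro j
      have : points c j = Pool.Agent.Y969.GP.cc c j := rfl
      rw [this, mul_add, ← mul_assoc I I, Complex.I_mul_I]
      ring
    have e2 : ∀ j, -(w j + I * (points c j : ℂ)) = -(I * ((Pool.Agent.Y969.GP.cc c j : ℂ) - I * w j)) := by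
      intro j
      have : points c j = Pool.Agent.Y969.GP.cc c j := rfl
      rw [this, mul_sub, ← mul_assoc I I, Complex.I_mul_I]
      ring
    simp only [e1, e2]
  have eL : ∀ (c : Fin n → ℝ) (w : Fin (n + 1) → ℂ) (p : ℕ), localFactor c w p =
      Pool.Agent.TH612.CF.lh (Pool.Agent.Y969.GP.av c w) (Pool.Agent.Y969.GP.bv c w) p := by
    intro c w p
    unfold localFactor Pool.Agent.TH612.CF.lh
    congr 1
    · refine Finset.prod_congr rfl fun j _ => Finset.prod_congr rfl fun l _ => ?_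
      have e3 : 1 + w j + w l + I * ((points c j : ℂ) - points c l) =
          1 + I * Pool.Agent.Y969.GP.av c w j - I * Pool.Agent.Y969.GP.bv c w l := by
        unfold Pool.Agent.Y969.GP.av Pool.Agent.Y969.GP.bv
        have h1 : points c j = Pool.Agent.Y969.GP.cc c j := rfl
        have h2 : points c l = Pool.Agent.Y969.GP.cc c l := rfl
        rw [h1, h2, mul_add, mul_sub, mul_sub, ← mul_assoc I I, Complex.I_mul_I, ← mul_assoc I I,
          Complex.I_mul_I]
        ring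
      rw [e3]
    · exact tsum_congr fun m => eT c w p m
  have eM : ∀ (c : Fin n → ℝ) (t : ℝ), mainTerm c t = Pool.Agent.Y969.GP.RR c t := by
    intro c t
    unfold mainTerm Pool.Agent.Y969.GP.RR arithmeticFactor Pool.Agent.TH612.CF.FH
    simp only [eL]
    rfl
  refine ⟨⟨Pool.Agent.TH612.CF.CK (n + 1) (1 / 8), fun c w hw p hp => ?_⟩, fun ε hε => ?_⟩
  · have hT : Pool.Agent.TH612.CF.Tb (1 / 8) (Pool.Agent.Y969.GP.av c w) (Pool.Agent.Y969.GP.bv c w) := by
      intro j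
      have h1 : (Pool.Agent.Y969.GP.av c w j).im = -(w j).re := by
        unfold Pool.Agent.Y969.GP.av
        simp
      have h2 : (Pool.Agent.Y969.GP.bv c w j).im = (w j).re := by
        unfold Pool.Agent.Y969.GP.bv
        simp
      rw [h1, h2, abs_neg, and_self]
      exact (Complex.abs_re_le_norm _).trans (hw j)
    refine ⟨?_, ?_⟩
    · simp only [eT]
      exact Pool.Agent.TH612.CF.lt_summable_norm (by norm_num) hT hp
    · rw [eL]
      have h := Pool.Agent.TH612.CF.lh_le (c := 1 / 8) (by norm_num) hT hp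
      have e : (4 * (1 / 8) - 2 : ℝ) = -(3 / 2) := by norm_num
      rw [e] at h
      exact h
  · obtain ⟨δ, T₀, hδ, h⟩ := Pool.Agent.L0h37.KM.gp_main n ε hε
    refine ⟨δ, T₀, hδ, fun T S hT hS hST => ?_⟩
    refine (le_of_eq ?_).trans (h T S hT hS hST)
    congr 1
    ext c
    have e1 : ∀ t : ℝ, ‖riemannZeta (1 / 2 + I * t)‖ ^ 2 * ∏ j, ‖riemannZeta (1 / 2 + I * (t + c j))‖ ^ 2 =
        ∏ j, Pool.Agent.Y969.GP.ff (t + Pool.Agent.Y969.GP.cc c j) := by
      intro t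
      rw [Fin.prod_univ_succ]
      unfold Pool.Agent.Y969.GP.ff Pool.Agent.Y969.GP.cc
      simp
    simp only [Set.mem_ofPred_eq, e1, eM, Set.mem_Icc]

end

end Pool.Agent.Results.MP_069854_nt.SquareRootRecipe
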